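import Pool.Agent.Helper26.HN.Stmts

/-! Row NEZ of the sheet HN. -/

set_option autoImplicit false

namespace Pool.Agent.Helper4.HN

open MeasureTheory Filter Pool.Agent.Helper95 Pool.Agent.Helper95.PW Pool.Agent.Helper95.LN
open Pool.Agent.Helper26.HN

theorem young {a k K : ℝ} (ha : 0 ≤ a) (hk : 0 ≤ k) (hK : 0 < K) :
    a * k ^ (3 / 5 : ℝ) ≤ K / 3 * k + (3 : ℝ) ^ (3 / 2 : ℝ) * K ^ (-(3 / 2) : ℝ) *
      a ^ (5 / 2 : ℝ) := by
  by_cases h : a ≤ K / 3 * k ^ (2 / 5 : ℝ)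
  · have e : k ^ (2 / 5 : ℝ) * k ^ (3 / 5 : ℝ) = k := by
      rw [← Real.rpow_add_of_nonneg hk (by norm_num) (by norm_num)]
      norm_num
    have h1 : a * k ^ (3 / 5 : ℝ) ≤ K / 3 * k ^ (2 / 5 : ℝ) * k ^ (3 / 5 : ℝ) :=
      mul_le_mul_of_nonneg_right h (by positivity)
    rw [mul_assoc, e] at h1
    have h2 : 0 ≤ (3 : ℝ) ^ (3 / 2 : ℝ) * K ^ (-(3 / 2) : ℝ) * a ^ (5 / 2 : ℝ) := by positivity
    linarith
  · push Not at h
    have h1 : k ^ (2 / 5 : ℝ) ≤ 3 * a * K⁻¹ := by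
      rw [← div_eq_mul_inv, le_div_iff₀ hK]
      linarith
    have h2 : k ^ (3 / 5 : ℝ) ≤ (3 * a * K⁻¹) ^ (3 / 2 : ℝ) := by
      have e : k ^ (3 / 5 : ℝ) = (k ^ (2 / 5 : ℝ)) ^ (3 / 2 : ℝ) := by
        rw [← Real.rpow_mul hk]
        norm_num
      rw [e]
      exact Real.rpow_le_rpow (by positivity) h1 (by norm_num)
    have h3 : (3 * a * K⁻¹) ^ (3 / 2 : ℝ) =
        (3 : ℝ) ^ (3 / 2 : ℝ) * a ^ (3 / 2 : ℝ) * K ^ (-(3 / 2) : ℝ) := by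
      rw [Real.mul_rpow (by positivity) (by positivity), Real.mul_rpow (by norm_num) ha,
        Real.inv_rpow hK.le, ← Real.rpow_neg hK.le]
    have h4 : a * a ^ (3 / 2 : ℝ) = a ^ (5 / 2 : ℝ) := by
      have : a * a ^ (3 / 2 : ℝ) = a ^ (1 : ℝ) * a ^ (3 / 2 : ℝ) := by rw [Real.rpow_one]
      rw [this, ← Real.rpow_add_of_nonneg ha (by norm_num) (by norm_num)]
      norm_num
    have h5 : a * k ^ (3 / 5 : ℝ) ≤ (3 : ℝ) ^ (3 / 2 : ℝ) * K ^ (-(3 / 2) : ℝ) *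
        a ^ (5 / 2 : ℝ) := by
      calc a * k ^ (3 / 5 : ℝ) ≤ a * (3 * a * K⁻¹) ^ (3 / 2 : ℝ) :=
            mul_le_mul_of_nonneg_left h2 ha
        _ = (3 : ℝ) ^ (3 / 2 : ℝ) * K ^ (-(3 / 2) : ℝ) * (a * a ^ (3 / 2 : ℝ)) := by
            rw [h3]; ring
        _ = _ := by rw [h4]
    have h6 : 0 ≤ K / 3 * k := by positivity
    linarith

theorem young2 {A m k K : ℝ} (hA : 0 ≤ A) (hm : 0 ≤ m) (hk : 0 ≤ k) (hK : 0 < K) :
    A * (m ^ (2 / 5 : ℝ) * k ^ (3 / 5 : ℝ)) ≤ K / 3 * k + (3 : ℝ) ^ (3 / 2 : ℝ) *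
      K ^ (-(3 / 2) : ℝ) * A ^ (5 / 2 : ℝ) * m := by
  have h := young (a := A * m ^ (2 / 5 : ℝ)) (by positivity) hk hK
  have e : (A * m ^ (2 / 5 : ℝ)) ^ (5 / 2 : ℝ) = A ^ (5 / 2 : ℝ) * m := by
    rw [Real.mul_rpow hA (by positivity), ← Real.rpow_mul hm]
    norm_num
  rw [e] at h
  calc _ = A * m ^ (2 / 5 : ℝ) * k ^ (3 / 5 : ℝ) := by ring
    _ ≤ _ := h
    _ = _ := by ring

theorem amgm {η t : ℝ} (hη : 0 < η) : t ≤ η * t ^ 2 + 1 / (4 * η) := by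
  have h : 0 ≤ (2 * η * t - 1) ^ 2 / (4 * η) := by positivity
  have e : (2 * η * t - 1) ^ 2 / (4 * η) = η * t ^ 2 + 1 / (4 * η) - t := by
    field_simp
    ring
  linarith

theorem nr_nn (y : R3) : 0 ≤ nr y := Real.sqrt_nonneg _

theorem near1_nn {M : ℕ} (X : Fin M → R3) (s : ℝ) (y : R3) : 0 ≤ near1 X s y := by
  unfold near1
  refine Finset.sum_nonneg fun j _ => ?_
  split_ifs
  · have := nr_nn (y - X j)
    positivity
  · exact le_rfl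

theorem near1_le {M : ℕ} (X : Fin M → R3) {s d η : ℝ} (hη : 0 < η) (hsd : s ≤ d) (y : R3) :
    near1 X s y ≤ η * near2 X d y + 1 / (4 * η) * nbr X s y := by
  unfold near1 near2 nbr
  rw [Finset.mul_sum, Finset.mul_sum, ← Finset.sum_add_distrib]
  refine Finset.sum_le_sum fun j _ => ?_
  by_cases h : nr (y - X j) < s
  · rw [if_pos h, if_pos (lt_of_lt_of_le h hsd), if_pos h, mul_one]
    have := amgm (t := 1 / nr (y - X j)) hη
    rwa [one_div_pow] at this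
  · rw [if_neg h, if_neg h, mul_zero, add_zero]
    split_ifs
    · positivity
    · simp

theorem one_le {n : ℕ} (u : Wf n) (w w1 w2 : R3 → ℝ) (η c : ℝ) (h0 : ∀ y, 0 ≤ w y)
    (h : ∀ y, w y ≤ η * w1 y + c * w2 y)
    (h1 : ∀ s, Integrable (fun x : Cf n => (∑ k, w1 (x k)) * u s x ^ 2))
    (h2 : ∀ s, Integrable (fun x : Cf n => (∑ k, w2 (x k)) * u s x ^ 2)) :
    one w u ≤ η * one w1 u + c * one w2 u := by
  unfold one
  rw [Finset.mul_sum, Finset.mul_sum, ← Finset.sum_add_distrib]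
  refine Finset.sum_le_sum fun s _ => ?_
  rw [← integral_const_mul, ← integral_const_mul, ← integral_add ((h1 s).const_mul _)
    ((h2 s).const_mul _)]
  refine integral_mono_of_nonneg (Eventually.of_forall fun x => ?_)
    (((h1 s).const_mul _).add ((h2 s).const_mul _)) (Eventually.of_forall fun x => ?_)
  · exact mul_nonneg (Finset.sum_nonneg fun k _ => h0 _) (sq_nonneg _)
  · have h3 : ∑ k, w (x k) ≤ η * ∑ k, w1 (x k) + c * ∑ k, w2 (x k) := by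
      rw [Finset.mul_sum, Finset.mul_sum, ← Finset.sum_add_distrib]
      exact Finset.sum_le_sum fun k _ => h _
    have h4 := mul_le_mul_of_nonneg_right h3 (sq_nonneg (u s x))
    simp only
    calc _ ≤ (η * ∑ k, w1 (x k) + c * ∑ k, w2 (x k)) * u s x ^ 2 := h4
      _ = _ := by ring

theorem kin_nn {n : ℕ} (u : Wf n) : 0 ≤ kin u := by
  unfold kin PW.sq
  exact Finset.sum_nonneg fun k _ => Finset.sum_nonneg fun i _ => Finset.sum_nonneg fun s _ =>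
    integral_nonneg fun x => sq_nonneg _

theorem sq_nn {n : ℕ} (u : Wf n) : 0 ≤ PW.sq u := by
  unfold PW.sq
  exact Finset.sum_nonneg fun s _ => integral_nonneg fun x => sq_nonneg _

theorem NEZ (h1 : ST_NRL) (h2 : ST_DYZ) (h3 : ST_INZ) (h4 : PW.ST_HLOC) : ST_NEZ := by
  obtain ⟨C0, hC0, H0⟩ := h1
  obtain ⟨C1, hC1, H1⟩ := h2
  obtain ⟨C2, hC2, H2⟩ := h4
  refine ⟨(3 : ℝ) ^ (3 / 2 : ℝ) * C1 ^ (5 / 2 : ℝ), by positivity, fun d K hd hK => ?_⟩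
  set B : ℝ := 3 * C2 / (4 * K) with hB
  have hBp : 0 < B := by positivity
  refine ⟨2 * K / (3 * d ^ 2) + B * C0 + (3 : ℝ) ^ (3 / 2 : ℝ) * K ^ (-(3 / 2) : ℝ) *
    (B * C0) ^ (5 / 2 : ℝ) + C1, by positivity, ?_⟩
  intro n M X z b u hz hn hS hb hbd hSm hAn hsq
  have hz0 : 0 < z := by linarith
  have hk := kin_nn u
  have hM : (0 : ℝ) ≤ M := Nat.cast_nonneg M
  have hzz : z ≤ z ^ 2 := by nlinarith
  -- the innermost part
  have inner : ∀ s : ℝ, 0 < s → s ≤ d → s ≤ 1 / z → z * one (near1 X s) u ≤ K / 3 * kin u +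
      2 * K / (3 * d ^ 2) * (z ^ 2 * M) + B * C0 * (z ^ 2 * M) + K / 3 * kin u +
      (3 : ℝ) ^ (3 / 2 : ℝ) * K ^ (-(3 / 2) : ℝ) * (B * C0) ^ (5 / 2 : ℝ) * (z ^ 2 * M) := by
    intro s hs hsd hsz
    obtain ⟨hI2, hH⟩ := H2 n M X d u hd hS hSm
    obtain ⟨-, hI0⟩ := h3 n M X s u hSm
    have hη : 0 < K / (3 * C2 * z) := by positivity
    have k1 := one_le u (near1 X s) (near2 X d) (nbr X s) (K / (3 * C2 * z))
      (1 / (4 * (K / (3 * C2 * z)))) (near1_nn X s) (near1_le X hη hsd) hI2 hI0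
    have k2 := mul_le_mul_of_nonneg_left k1 hz0.le
    have e1 : z * (K / (3 * C2 * z) * one (near2 X d) u +
        1 / (4 * (K / (3 * C2 * z))) * one (nbr X s) u) =
        K / (3 * C2) * one (near2 X d) u + B * z ^ 2 * one (nbr X s) u := by
      rw [hB]
      field_simp
    rw [e1] at k2
    have k3 : K / (3 * C2) * one (near2 X d) u ≤ K / 3 * kin u +
        2 * K / (3 * d ^ 2) * (z ^ 2 * M) := by
      have k4 : (n : ℝ) * PW.sq u ≤ z * M * 2 :=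
        mul_le_mul hn hsq (sq_nn u) (by positivity)
      have k5 : (n : ℝ) * PW.sq u / d ^ 2 ≤ 2 / d ^ 2 * (z ^ 2 * M) := by
        have k6 : z * M * 2 ≤ 2 * (z ^ 2 * M) := by nlinarith
        calc (n : ℝ) * PW.sq u / d ^ 2 ≤ (2 * (z ^ 2 * M)) / d ^ 2 :=
              div_le_div_of_nonneg_right (k4.trans k6) (by positivity)
          _ = _ := by ring
      calc K / (3 * C2) * one (near2 X d) u ≤
            K / (3 * C2) * (C2 * (kin u + n * PW.sq u / d ^ 2)) :=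
            mul_le_mul_of_nonneg_left hH (by positivity)
        _ = K / 3 * (kin u + n * PW.sq u / d ^ 2) := by field_simp
        _ ≤ K / 3 * (kin u + 2 / d ^ 2 * (z ^ 2 * M)) :=
            mul_le_mul_of_nonneg_left (by linarith) (by positivity)
        _ = _ := by field_simp
    have k7 := H0 n M X d s u hS hs hsd hSm hAn hsq
    have k8 : z ^ 2 * ((M : ℝ) ^ (2 / 5 : ℝ) * (kin u * s ^ 2) ^ (3 / 5 : ℝ)) ≤
        z ^ (4 / 5 : ℝ) * ((M : ℝ) ^ (2 / 5 : ℝ) * kin u ^ (3 / 5 : ℝ)) := by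
      have e2 : (kin u * s ^ 2) ^ (3 / 5 : ℝ) ≤ kin u ^ (3 / 5 : ℝ) * z ^ (-(6 / 5) : ℝ) := by
        have e3 : s ^ 2 ≤ z ^ (-2 : ℝ) := by
          have e4 : z ^ (-2 : ℝ) = (1 / z) ^ 2 := by
            rw [Real.rpow_neg hz0.le, one_div, inv_pow]
            norm_num
          rw [e4]
          exact pow_le_pow_left₀ hs.le hsz 2
        calc (kin u * s ^ 2) ^ (3 / 5 : ℝ) ≤ (kin u * z ^ (-2 : ℝ)) ^ (3 / 5 : ℝ) := by
              apply Real.rpow_le_rpow (by positivity) _ (by norm_num)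
              exact mul_le_mul_of_nonneg_left e3 hk
          _ = _ := by
              rw [Real.mul_rpow hk (by positivity), ← Real.rpow_mul hz0.le]
              norm_num
      have e5 : z ^ 2 * z ^ (-(6 / 5) : ℝ) = z ^ (4 / 5 : ℝ) := by
        rw [← Real.rpow_natCast z 2, ← Real.rpow_add hz0]
        norm_num
      calc z ^ 2 * ((M : ℝ) ^ (2 / 5 : ℝ) * (kin u * s ^ 2) ^ (3 / 5 : ℝ)) ≤
            z ^ 2 * ((M : ℝ) ^ (2 / 5 : ℝ) * (kin u ^ (3 / 5 : ℝ) * z ^ (-(6 / 5) : ℝ))) := by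
            gcongr
        _ = (z ^ 2 * z ^ (-(6 / 5) : ℝ)) * ((M : ℝ) ^ (2 / 5 : ℝ) * kin u ^ (3 / 5 : ℝ)) := by
            ring
        _ = _ := by rw [e5]
    have k9 : B * z ^ 2 * one (nbr X s) u ≤ B * C0 * (z ^ 2 * M) +
        B * C0 * z ^ (4 / 5 : ℝ) * ((M : ℝ) ^ (2 / 5 : ℝ) * kin u ^ (3 / 5 : ℝ)) := by
      calc B * z ^ 2 * one (nbr X s) u ≤ B * z ^ 2 * (C0 * (M + (M : ℝ) ^ (2 / 5 : ℝ) *
            (kin u * s ^ 2) ^ (3 / 5 : ℝ))) := mul_le_mul_of_nonneg_left k7 (by positivity)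
        _ = B * C0 * (z ^ 2 * M) + B * C0 * (z ^ 2 * ((M : ℝ) ^ (2 / 5 : ℝ) *
            (kin u * s ^ 2) ^ (3 / 5 : ℝ))) := by ring
        _ ≤ B * C0 * (z ^ 2 * M) + B * C0 * (z ^ (4 / 5 : ℝ) * ((M : ℝ) ^ (2 / 5 : ℝ) *
            kin u ^ (3 / 5 : ℝ))) := by
            have := mul_le_mul_of_nonneg_left k8 (show 0 ≤ B * C0 by positivity)
            linarith
        _ = _ := by ring
    have k10 := young2 (A := B * C0 * z ^ (4 / 5 : ℝ)) (by positivity) hM hk hK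
    have e6 : (B * C0 * z ^ (4 / 5 : ℝ)) ^ (5 / 2 : ℝ) = (B * C0) ^ (5 / 2 : ℝ) * z ^ 2 := by
      rw [Real.mul_rpow (by positivity) (by positivity), ← Real.rpow_mul hz0.le]
      norm_num
    rw [e6] at k10
    have e7 : (3 : ℝ) ^ (3 / 2 : ℝ) * K ^ (-(3 / 2) : ℝ) * ((B * C0) ^ (5 / 2 : ℝ) * z ^ 2) *
        (M : ℝ) = (3 : ℝ) ^ (3 / 2 : ℝ) * K ^ (-(3 / 2) : ℝ) * (B * C0) ^ (5 / 2 : ℝ) *
        (z ^ 2 * M) := by ring
    rw [e7] at k10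
    linarith
  have hzM : 0 ≤ z ^ 2 * (M : ℝ) := by positivity
  have hP : 0 ≤ (3 : ℝ) ^ (3 / 2 : ℝ) * C1 ^ (5 / 2 : ℝ) * K ^ (-(3 / 2) : ℝ) *
      z ^ (5 / 2 : ℝ) * b ^ (1 / 2 : ℝ) * M := by positivity
  by_cases hbz : b ≤ 1 / z
  · have k1 := inner b hb hbd hbz
    have k2 : 0 ≤ C1 * (z ^ 2 * M) := by positivity
    have k3 : 0 ≤ K / 3 * kin u := by positivity
    have e : K * kin u + ((3 : ℝ) ^ (3 / 2 : ℝ) * C1 ^ (5 / 2 : ℝ) * K ^ (-(3 / 2) : ℝ) *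
        z ^ (5 / 2 : ℝ) * b ^ (1 / 2 : ℝ) + (2 * K / (3 * d ^ 2) + B * C0 +
        (3 : ℝ) ^ (3 / 2 : ℝ) * K ^ (-(3 / 2) : ℝ) * (B * C0) ^ (5 / 2 : ℝ) + C1) * z ^ 2) * M =
        3 * (K / 3 * kin u) + (3 : ℝ) ^ (3 / 2 : ℝ) * C1 ^ (5 / 2 : ℝ) * K ^ (-(3 / 2) : ℝ) *
        z ^ (5 / 2 : ℝ) * b ^ (1 / 2 : ℝ) * M + 2 * K / (3 * d ^ 2) * (z ^ 2 * M) +
        B * C0 * (z ^ 2 * M) + (3 : ℝ) ^ (3 / 2 : ℝ) * K ^ (-(3 / 2) : ℝ) *
        (B * C0) ^ (5 / 2 : ℝ) * (z ^ 2 * M) + C1 * (z ^ 2 * M) := by ring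
    rw [e]
    linarith
  · push Not at hbz
    have hs : 0 < 1 / z := by positivity
    have k1 := inner (1 / z) hs (hbz.le.trans hbd) le_rfl
    have k2 := H1 n M X d (1 / z) b u hS hs hbz.le hbd hSm hAn hsq
    have k3 := mul_le_mul_of_nonneg_left k2 hz0.le
    have e1 : z * (one (near1 X (1 / z)) u + C1 * ((M : ℝ) / (1 / z) + (M : ℝ) ^ (2 / 5 : ℝ) *
        kin u ^ (3 / 5 : ℝ) * b ^ (1 / 5 : ℝ))) = z * one (near1 X (1 / z)) u +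
        C1 * (z ^ 2 * M) + C1 * z * b ^ (1 / 5 : ℝ) * ((M : ℝ) ^ (2 / 5 : ℝ) *
        kin u ^ (3 / 5 : ℝ)) := by
      rw [div_div_eq_mul_div, div_one]
      ring
    rw [e1] at k3
    have k4 := young2 (A := C1 * z * b ^ (1 / 5 : ℝ)) (by positivity) hM hk hK
    have e2 : (C1 * z * b ^ (1 / 5 : ℝ)) ^ (5 / 2 : ℝ) =
        C1 ^ (5 / 2 : ℝ) * z ^ (5 / 2 : ℝ) * b ^ (1 / 2 : ℝ) := by
      rw [Real.mul_rpow (by positivity) (by positivity), Real.mul_rpow hC1.le hz0.le,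
        ← Real.rpow_mul hb.le]
      norm_num
    rw [e2] at k4
    have e : K * kin u + ((3 : ℝ) ^ (3 / 2 : ℝ) * C1 ^ (5 / 2 : ℝ) * K ^ (-(3 / 2) : ℝ) *
        z ^ (5 / 2 : ℝ) * b ^ (1 / 2 : ℝ) + (2 * K / (3 * d ^ 2) + B * C0 +
        (3 : ℝ) ^ (3 / 2 : ℝ) * K ^ (-(3 / 2) : ℝ) * (B * C0) ^ (5 / 2 : ℝ) + C1) * z ^ 2) * M =
        3 * (K / 3 * kin u) + (3 : ℝ) ^ (3 / 2 : ℝ) * K ^ (-(3 / 2) : ℝ) * (C1 ^ (5 / 2 : ℝ) *
        z ^ (5 / 2 : ℝ) * b ^ (1 / 2 : ℝ)) * M + 2 * K / (3 * d ^ 2) * (z ^ 2 * M) +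
        B * C0 * (z ^ 2 * M) + (3 : ℝ) ^ (3 / 2 : ℝ) * K ^ (-(3 / 2) : ℝ) *
        (B * C0) ^ (5 / 2 : ℝ) * (z ^ 2 * M) + C1 * (z ^ 2 * M) := by ring
    rw [e]
    linarith

end Pool.Agent.Helper4.HN
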